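import Pool.Agent.TH158.FM.Stm
import Pool.Agent.Helper240.ZU.A1

/-!
# Crude bound for zeta on the critical line and the error integral
-/

set_option autoImplicit false

namespace Pool.Agent.TH511.BB

open Complex MeasureTheory Set Filter Topology

theorem exp_int : (∫ t : ℝ, Real.exp (-4 * |t|)) = 1 / 2 := by
  rw [integral_comp_abs (f := fun x => Real.exp (-4 * x)), integral_exp_mul_Ioi (by norm_num)]
  norm_num

theorem exp_integrable : Integrable (fun t : ℝ => Real.exp (-4 * |t|)) := by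
  by_contra h
  have h1 := integral_undef h
  rw [exp_int] at h1
  norm_num at h1

/-- The integrand. -/
noncomputable def ff (u : ℝ) : ℝ := Int.fract u * u ^ (-(3 / 2) : ℝ)

theorem ff_int : IntegrableOn ff (Ioi 1) := by
  have h1 : IntegrableOn (fun u : ℝ => u ^ (-(3 / 2) : ℝ)) (Ioi 1) :=
    integrableOn_Ioi_rpow_of_lt (by norm_num) one_pos
  refine Integrable.bdd_mul (c := 1) h1 measurable_fract.aestronglyMeasurable ?_
  refine Filter.Eventually.of_forall (fun u => ?_)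
  rw [Real.norm_eq_abs, Int.abs_fract]
  exact (Int.fract_lt_one u).le

theorem alg (A B : ℝ) (hA : 0 < A) (hB : 0 < B) (h : B ^ 2 = A ^ 2 + 1) :
    2 * (B - A) + 2 * A ^ 2 * (B⁻¹ - A⁻¹) ≤ A⁻¹ - B⁻¹ := by
  have h1 : 4 * A ^ 3 + 3 * A ≤ (4 * A ^ 2 + 1) * B := by
    refine (sq_le_sq₀ (by positivity) (by positivity)).1 ?_
    have e : ((4 * A ^ 2 + 1) * B) ^ 2 = (4 * A ^ 2 + 1) ^ 2 * (A ^ 2 + 1) := by
      rw [mul_pow, h]
    rw [e]
    nlinarith
  have h2 : A⁻¹ - B⁻¹ - (2 * (B - A) + 2 * A ^ 2 * (B⁻¹ - A⁻¹)) =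
      ((4 * A ^ 2 + 1) * B - (4 * A ^ 3 + 3 * A)) / (A * B) := by
    field_simp
    linear_combination (-2 * A) * h
  have h3 : 0 ≤ ((4 * A ^ 2 + 1) * B - (4 * A ^ 3 + 3 * A)) / (A * B) := by
    apply div_nonneg
    · linarith
    · positivity
  linarith

theorem piece (n : ℕ) (hn : 1 ≤ n) :
    (∫ u in (n : ℝ)..((n + 1 : ℕ) : ℝ), ff u) ≤ (√(n : ℝ))⁻¹ - (√((n + 1 : ℕ) : ℝ))⁻¹ := by
  have hn0 : (0 : ℝ) < n := by exact_mod_cast hn
  have hle : (n : ℝ) ≤ ((n + 1 : ℕ) : ℝ) := by push_cast; linarith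
  have h0 : (0 : ℝ) ∉ uIcc (n : ℝ) ((n + 1 : ℕ) : ℝ) := by
    rw [uIcc_of_le hle]
    intro h
    exact absurd h.1 (not_le.2 hn0)
  have h1 : (∫ u in (n : ℝ)..((n + 1 : ℕ) : ℝ), ff u) =
      ∫ u in (n : ℝ)..((n + 1 : ℕ) : ℝ), (u ^ (-(1 / 2) : ℝ) - n * u ^ (-(3 / 2) : ℝ)) := by
    rw [intervalIntegral.integral_of_le hle, intervalIntegral.integral_of_le hle,
      integral_Ioc_eq_integral_Ioo, integral_Ioc_eq_integral_Ioo]
    refine setIntegral_congr_fun measurableSet_Ioo (fun u hu => ?_)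
    have hu0 : 0 < u := hn0.trans hu.1
    have hfl : Int.fract u = u - n := by
      have h2 : ⌊u⌋ = (n : ℤ) := by
        rw [Int.floor_eq_iff]
        refine ⟨by exact_mod_cast hu.1.le, ?_⟩
        have := hu.2
        push_cast at this
        exact_mod_cast this
      rw [← Int.self_sub_floor, h2]
      norm_cast
    show ff u = u ^ (-(1 / 2) : ℝ) - n * u ^ (-(3 / 2) : ℝ)
    unfold ff
    rw [hfl, sub_mul]
    congr 1
    rw [show (-(1 / 2) : ℝ) = 1 + -(3 / 2) by norm_num, Real.rpow_add hu0, Real.rpow_one]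
  rw [h1, intervalIntegral.integral_sub, intervalIntegral.integral_const_mul,
    integral_rpow (Or.inr ⟨by norm_num, h0⟩), integral_rpow (Or.inr ⟨by norm_num, h0⟩)]
  · have hA : 0 < √(n : ℝ) := Real.sqrt_pos.2 hn0
    have hB : 0 < √((n + 1 : ℕ) : ℝ) := Real.sqrt_pos.2 (by positivity)
    have e1 : ∀ x : ℝ, 0 < x → x ^ (-(1 / 2) + 1 : ℝ) = √x := by
      intro x hx
      rw [Real.sqrt_eq_rpow]
      norm_num
    have e2 : ∀ x : ℝ, 0 < x → x ^ (-(3 / 2) + 1 : ℝ) = (√x)⁻¹ := by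
      intro x hx
      rw [Real.sqrt_eq_rpow, ← Real.rpow_neg hx.le]
      norm_num
    rw [e1 _ hn0, e1 _ (by positivity), e2 _ hn0, e2 _ (by positivity)]
    have h2 : √((n + 1 : ℕ) : ℝ) ^ 2 = √(n : ℝ) ^ 2 + 1 := by
      rw [Real.sq_sqrt (by positivity), Real.sq_sqrt hn0.le]
      push_cast
      ring
    have h3 := alg _ _ hA hB h2
    rw [Real.sq_sqrt hn0.le] at h3
    refine le_trans (le_of_eq ?_) h3
    ring
  · apply ContinuousOn.intervalIntegrable
    intro x hx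
    have : x ≠ 0 := fun h => h0 (h ▸ hx)
    exact (Real.continuousAt_rpow_const _ _ (Or.inl this)).continuousWithinAt
  · apply ContinuousOn.intervalIntegrable
    intro x hx
    have : x ≠ 0 := fun h => h0 (h ▸ hx)
    exact (continuousAt_const.mul (Real.continuousAt_rpow_const _ _ (Or.inl this))).continuousWithinAt

theorem ff_ii (a b : ℝ) (ha : 1 ≤ a) (hb : 1 ≤ b) : IntervalIntegrable ff volume a b := by
  rw [intervalIntegrable_iff]
  refine ff_int.mono_set fun x hx => ?_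
  have := hx.1
  exact lt_of_le_of_lt (le_min ha hb) this

theorem part (N : ℕ) : (∫ u in (1 : ℝ)..((N + 1 : ℕ) : ℝ), ff u) ≤ 1 - (√((N + 1 : ℕ) : ℝ))⁻¹ := by
  induction N with
  | zero => simp
  | succ N ih =>
    have h1 := piece (N + 1) (by omega)
    have h2 : (∫ u in (1 : ℝ)..((N + 1 : ℕ) : ℝ), ff u) +
        (∫ u in ((N + 1 : ℕ) : ℝ)..((N + 1 + 1 : ℕ) : ℝ), ff u) =
        ∫ u in (1 : ℝ)..((N + 1 + 1 : ℕ) : ℝ), ff u := by
      refine intervalIntegral.integral_add_adjacent_intervals (ff_ii _ _ le_rfl ?_) (ff_ii _ _ ?_ ?_)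
      · push_cast
        have : (0 : ℝ) ≤ N := Nat.cast_nonneg _
        linarith
      · push_cast
        have : (0 : ℝ) ≤ N := Nat.cast_nonneg _
        linarith
      · push_cast
        have : (0 : ℝ) ≤ N := Nat.cast_nonneg _
        linarith
    rw [← h2]
    linarith

theorem J_le : (∫ u in Ioi (1 : ℝ), ff u) ≤ 1 := by
  have h1 : Tendsto (fun N : ℕ => ((N + 1 : ℕ) : ℝ)) atTop atTop :=
    tendsto_natCast_atTop_atTop.comp (tendsto_add_atTop_nat 1)
  refine le_of_tendsto' (intervalIntegral_tendsto_integral_Ioi 1 ff_int h1) fun N => ?_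
  refine (part N).trans ?_
  have : 0 ≤ (√((N + 1 : ℕ) : ℝ))⁻¹ := by positivity
  linarith

theorem K_le (s : ℂ) (hs : s.re = 1 / 2) :
    ‖∫ u in Ioi (1 : ℝ), ((Int.fract u : ℝ) : ℂ) * (u : ℂ) ^ (-s - 1)‖ ≤ 1 := by
  refine le_trans ?_ J_le
  apply norm_integral_le_of_norm_le ff_int
  rw [ae_restrict_iff' measurableSet_Ioi]
  refine Filter.Eventually.of_forall (fun u hu => ?_)
  have hu0 : (0:ℝ) < u := lt_trans one_pos hu
  rw [norm_mul, Complex.norm_real, Real.norm_eq_abs, Int.abs_fract,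
    Complex.norm_cpow_eq_rpow_re_of_pos hu0]
  have h3 : (-s - 1).re = -(3 / 2) := by
    simp only [sub_re, neg_re, one_re, hs]
    norm_num
  rw [h3]
  exact le_rfl

open Pool.Agent.TH158.FM

theorem pt_re (t : ℝ) : (pt (1 / 2) t).re = 1 / 2 := by
  simp [pt]

theorem pt_im (t : ℝ) : (pt (1 / 2) t).im = t := by
  simp [pt]

theorem zb : S_ZB := by
  intro t
  have hre := pt_re t
  have him := pt_im t
  generalize pt (1 / 2) t = s at *
  have hs1 : s ≠ 1 := by
    rintro rfl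
    norm_num at hre
  have hs0 : s ≠ 0 := by
    rintro rfl
    norm_num at hre
  have h1 : s - 1 = -(starRingEnd ℂ) s := by
    apply Complex.ext
    · simp only [sub_re, one_re, neg_re, conj_re, hre]
      norm_num
    · simp
  have h2 : ‖s - 1‖ = ‖s‖ := by
    rw [h1, norm_neg, RCLike.norm_conj]
  have h3 : 1 + 1 / (s - 1) = s / (s - 1) := by
    have : s - 1 ≠ 0 := sub_ne_zero.2 hs1
    field_simp
    ring
  have h4 : ‖s‖ ≤ 1 / 2 + |t| := by
    have := Complex.norm_le_abs_re_add_abs_im s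
    rw [hre, him] at this
    rwa [abs_of_pos (by norm_num : (0 : ℝ) < 1 / 2)] at this
  have h5 := K_le s hre
  rw [ZU.J_a1.zf_one s (by rw [hre]; norm_num) hs1, h3]
  refine (norm_sub_le _ _).trans ?_
  rw [norm_div, h2, div_self (norm_ne_zero_iff.2 hs0), norm_mul]
  have h6 : ‖s‖ * ‖∫ u in Ioi (1 : ℝ), ((Int.fract u : ℝ) : ℂ) * (u : ℂ) ^ (-s - 1)‖ ≤ ‖s‖ * 1 :=
    mul_le_mul_of_nonneg_left h5 (norm_nonneg _)
  linarith

theorem bound (δ t : ℝ) (h0 : 0 ≤ δ) (h1 : δ ≤ 1 / 100) :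
    ‖riemannZeta (pt (1 / 2) t)‖ ^ 4 * (Real.exp (-(2 * δ * t)) / Real.cosh (Real.pi * t) ^ 2) ≤
      324 * Real.exp (-4 * |t|) := by
  have hz : ‖riemannZeta (pt (1 / 2) t)‖ ≤ 3 * Real.exp (|t| / 3) := by
    refine (zb t).trans ?_
    have := Real.add_one_le_exp (|t| / 3)
    linarith
  have hz4 : ‖riemannZeta (pt (1 / 2) t)‖ ^ 4 ≤ 81 * Real.exp (4 * |t| / 3) := by
    refine (pow_le_pow_left₀ (norm_nonneg _) hz 4).trans (le_of_eq ?_)
    have e : ((4 : ℕ) : ℝ) * (|t| / 3) = 4 * |t| / 3 := by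
      push_cast
      ring
    rw [mul_pow, ← Real.exp_nat_mul, e]
    norm_num
  have he : Real.exp (-(2 * δ * t)) ≤ Real.exp (|t| / 50) := by
    rw [Real.exp_le_exp]
    have h2 : -t ≤ |t| := neg_le_abs t
    have h3 : 0 ≤ |t| := abs_nonneg t
    nlinarith
  have hc : Real.exp (Real.pi * |t|) / 2 ≤ Real.cosh (Real.pi * t) := by
    rw [← Real.cosh_abs, abs_mul, abs_of_pos Real.pi_pos, Real.cosh_eq]
    have := Real.exp_pos (-(Real.pi * |t|))
    linarith
  have hc0 : 0 < Real.exp (Real.pi * |t|) / 2 := by positivity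
  have hc2 : Real.exp (-(2 * δ * t)) / Real.cosh (Real.pi * t) ^ 2 ≤
      4 * Real.exp (|t| / 50 - 2 * (Real.pi * |t|)) := by
    have h2 : Real.exp (-(2 * δ * t)) / Real.cosh (Real.pi * t) ^ 2 ≤
        Real.exp (|t| / 50) / (Real.exp (Real.pi * |t|) / 2) ^ 2 :=
      div_le_div₀ (Real.exp_pos _).le he (by positivity) (pow_le_pow_left₀ hc0.le hc 2)
    refine h2.trans (le_of_eq ?_)
    rw [Real.exp_sub, show 2 * (Real.pi * |t|) = Real.pi * |t| + Real.pi * |t| by ring,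
      Real.exp_add]
    field_simp
    ring
  have hpos : 0 ≤ Real.exp (-(2 * δ * t)) / Real.cosh (Real.pi * t) ^ 2 := by positivity
  refine (mul_le_mul hz4 hc2 hpos (by positivity)).trans ?_
  have h5 : 81 * Real.exp (4 * |t| / 3) * (4 * Real.exp (|t| / 50 - 2 * (Real.pi * |t|))) =
      324 * Real.exp (4 * |t| / 3 + (|t| / 50 - 2 * (Real.pi * |t|))) := by
    rw [Real.exp_add]
    ring
  rw [h5]
  refine mul_le_mul_of_nonneg_left (Real.exp_le_exp.2 ?_) (by norm_num)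
  have h3 : 0 ≤ |t| := abs_nonneg t
  have h4 := Real.pi_gt_three
  nlinarith

theorem zeta_cont : Continuous (fun t : ℝ => riemannZeta (pt (1 / 2) t)) := by
  rw [continuous_iff_continuousAt]
  intro t
  have h1 : pt (1 / 2) t ≠ 1 := by
    intro h
    have := pt_re t
    rw [h] at this
    norm_num at this
  have h2 : ContinuousAt (fun t : ℝ => pt (1 / 2) t) t := by
    unfold pt
    fun_prop
  exact ContinuousAt.comp (f := fun t : ℝ => pt (1 / 2) t)
    (differentiableAt_riemannZeta h1).continuousAt h2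

theorem bb : S_BB := by
  intro δ h0 h1
  have hc : Continuous (fun t : ℝ => ‖riemannZeta (pt (1 / 2) t)‖ ^ 4 *
      (Real.exp (-(2 * δ * t)) / Real.cosh (Real.pi * t) ^ 2)) := by
    have hz := zeta_cont
    refine (hz.norm.pow 4).mul (Continuous.div (by fun_prop) ?_ ?_)
    · exact (Real.continuous_cosh.comp (by fun_prop)).pow 2
    · intro t
      have := Real.cosh_pos (Real.pi * t)
      positivity
  have hg : Integrable (fun t : ℝ => 324 * Real.exp (-4 * |t|)) := exp_integrable.const_mul 324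
  have hi : Integrable (fun t : ℝ => ‖riemannZeta (pt (1 / 2) t)‖ ^ 4 *
      (Real.exp (-(2 * δ * t)) / Real.cosh (Real.pi * t) ^ 2)) := by
    refine hg.mono' hc.aestronglyMeasurable (Filter.Eventually.of_forall fun t => ?_)
    rw [Real.norm_of_nonneg (by positivity)]
    exact bound δ t h0 h1
  refine ⟨hi, ?_⟩
  refine (integral_mono hi hg fun t => bound δ t h0 h1).trans ?_
  rw [integral_const_mul, exp_int]
  norm_num

end Pool.Agent.TH511.BB

namespace Pool.Agent.TH158.FM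

theorem bb_all : S_ZB ∧ S_BB := ⟨Pool.Agent.TH511.BB.zb, Pool.Agent.TH511.BB.bb⟩

end Pool.Agent.TH158.FM
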